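import Pool.Agent.H16.HK.FMain

/-!
# The pole of `L₂` at `s = 2` for the products of any variety with the curves `y ^ 2 = 4 x ^ ℓ + 1`

`k` is a number field, `ℓ` an odd prime, `F_ℓ` the curve `y ^ 2 = 4 x ^ ℓ + 1` (the quotient `y ^ ℓ = x (1 - x)`
of the Fermat curve of degree `ℓ`), and `d = [k(ζ_ℓ) : k]`; `d = ℓ - 1` if `ℓ` is unramified in `k`.
(A) is about `Y × F_ℓ` for any variety `Y` over `k`: `a v n` and `b v n` are the traces of the `n`-th power of the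
Frobenius at `v` on (the inertia invariants of) `H¹(Y)` and `H²(Y)`, and `B` is the first Betti number
of `Y`. (B) is about `C × F_ℓ` for any curve `C : y ^ 2 = F(x)` with `deg F` odd, and nothing is assumed: the bound for
the Frobenius traces is proved in `Pool.Agent.H1.Weil`. The facts used on Jacobi sums and on Hecke characters of
infinite order are proved in `Pool.Agent.H16.HK`.
-/

open NumberField IsDedekindDomain Filter Topology Polynomial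

namespace Pool.Agent.Results.MP_1f4fc7_nt.FermatFamily

open Pool.Agent.H1.Tate Pool.Agent.H16.HK

/-- (A) As `s → 2+`, `limsup d² ((log |L₂(s, Y × F_ℓ)| - log |L₂(s, Y)|) / log (1 / (s - 2)) - 1)² ≤ (ℓ - 1) B²`. If
`L₂(s, Y)` and `L₂(s, Y × F_ℓ)` have poles of orders `ρ` and `r` at `s = 2`, then `d² (r - ρ - 1)² ≤ (ℓ - 1) B²`, and
`r = ρ + 1` if `(ℓ - 1) B² < d²`, that is `ℓ > B² + 1` when `d = ℓ - 1`.
(B) `limsup d² (log |L₂(s, C × F_ℓ)| / log (1 / (s - 2)) - 2)² ≤ (ℓ - 1) (2 g)²`; if `L₂(s, C × F_ℓ)` has a pole of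
order `r` at `s = 2`, then `d² (r - 2)² ≤ (ℓ - 1) (2 g)²`, and `r = 2` if `(ℓ - 1) (2 g)² < d²`. -/
theorem result {k : Type*} [Field k] [NumberField k] (ℓ : ℕ) (hℓ : ℓ.Prime) (hℓ2 : ℓ ≠ 2) (d : ℕ)
    (hd : d = Module.finrank k (CyclotomicField ℓ k)) :
    (∀ (R : Finset (HeightOneSpectrum (𝓞 k))) (a b : HeightOneSpectrum (𝓞 k) → ℕ → ℂ) (B B₂ : ℝ)
      (bad bad' : HeightOneSpectrum (𝓞 k) → Multiset ℂ),
      (∀ v, (2 * ℓ : 𝓞 k) ∈ v.asIdeal → v ∈ R) →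
      (∀ v ∉ R, ∀ n, 0 < n → ‖a v n‖ ≤ B * Real.sqrt (Ideal.absNorm v.asIdeal) ^ n) →
      (∀ v ∉ R, ∀ n, 0 < n → ‖b v n‖ ≤ B₂ * (Ideal.absNorm v.asIdeal : ℝ) ^ n) →
      (∀ v ∈ R, ∀ α ∈ bad v, ‖α‖ ≤ Ideal.absNorm v.asIdeal) →
      (∀ v ∈ R, ∀ α ∈ bad' v, ‖α‖ ≤ Ideal.absNorm v.asIdeal) →
      (∀ ε : ℝ, 0 < ε → ∀ᶠ s : ℝ in 𝓝[>] 2, (d : ℝ) ^ 2 *
        ((Real.log ‖eulerL R (prodTrace ℓ a b) bad' (s : ℂ)‖ -
          Real.log ‖eulerL R b bad (s : ℂ)‖) / Real.log (1 / (s - 2)) - 1) ^ 2 ≤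
            ((ℓ : ℝ) - 1) * B ^ 2 + ε) ∧
      ∀ ρ r : ℤ, HasPole (eulerL R b bad) 2 ρ → HasPole (eulerL R (prodTrace ℓ a b) bad') 2 r →
        (d : ℝ) ^ 2 * ((r : ℝ) - ρ - 1) ^ 2 ≤ ((ℓ : ℝ) - 1) * B ^ 2 ∧
        (((ℓ : ℝ) - 1) * B ^ 2 < (d : ℝ) ^ 2 → r = ρ + 1)) ∧
    (∀ (F : (𝓞 k)[X]) (g : ℕ) (bad : HeightOneSpectrum (𝓞 k) → Multiset ℂ),
      F.natDegree = 2 * g + 1 → (F.map (algebraMap (𝓞 k) k)).Separable →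
      (∀ v, ∀ α ∈ bad v, ‖α‖ ≤ Ideal.absNorm v.asIdeal) →
      (∀ ε : ℝ, 0 < ε → ∀ᶠ s : ℝ in 𝓝[>] 2, (d : ℝ) ^ 2 *
        (Real.log ‖L2 F (C 4 * X ^ ℓ + 1) bad (s : ℂ)‖ / Real.log (1 / (s - 2)) - 2) ^ 2 ≤
          ((ℓ : ℝ) - 1) * (2 * g) ^ 2 + ε) ∧
      ∀ r : ℤ, HasPole (L2 F (C 4 * X ^ ℓ + 1) bad) 2 r →
        (d : ℤ) ^ 2 * (r - 2) ^ 2 ≤ ((ℓ : ℤ) - 1) * (2 * g) ^ 2 ∧
        (((ℓ : ℤ) - 1) * (2 * g) ^ 2 < (d : ℤ) ^ 2 → r = 2)) := by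
  subst hd
  refine ⟨fun R a b B B₂ bad bad' hR ha hb hbad hbad' =>
    ⟨fun ε hε => growth hℓ hℓ2 hR ha hb hbad hbad' hε,
      fun ρ r hρ hr => pole hℓ hℓ2 hR ha hb hbad hbad' hρ hr⟩, ?_⟩
  have hup : Pool.Agent.H18.RS.up k (fermatPoly ℓ) = C 4 * X ^ ℓ + 1 := by
    rw [Pool.Agent.H18.RS.up, fermatPoly, Polynomial.map_add, Polynomial.map_mul,
      Polynomial.map_pow, map_X, map_C, Polynomial.map_one]
    simp
  intro F g bad hF hsF hbad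
  rw [← hup]
  exact ⟨fun ε hε => hyper_growth hℓ hℓ2 hF hsF hbad hε, fun r hr => hyper_pole hℓ hℓ2 hF hsF hbad hr⟩

end Pool.Agent.Results.MP_1f4fc7_nt.FermatFamily
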