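import Pool.Agent.H16.GF.Ell

/-!
# The pole of `L₂` at `s = 2` for the products of any variety with all modular abelian varieties

`k` is a number field and `n = [k : ℚ]`. `Y` is any smooth projective variety over `k`, given by the traces of the Frobenius
elements on `H¹(Y)` and `H²(Y)` (`Variety`), `B` is its first Betti number. (A) is about `Y × A_j` for a family of
abelian varieties `A_j` such that `H¹(A_j)` is the sum of the representations of `d_j` eigenforms of weight `2`, of any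
levels, with real coefficients (`Family`), for instance the abelian varieties attached by Shimura to the newforms
of all levels. No bound for the coefficients of the eigenforms is assumed. (B) is about `Y × E_j` for modular elliptic curves
`E_j : y ^ 2 = h_j(x)`, whose traces are defined by counting points (`EllFamily`). An example of `Y` for which everything
is proved, Weil's bound included, is a curve `y ^ 2 = F(x)` with `F ∈ 𝓞 k [x]` of degree `2 g + 1` (`curve`, `B = 2 g`).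
The Rankin-Selberg method is carried out in `Pool.Agent.H18.RS` and `Pool.Agent.H16.GF`.
-/

open NumberField IsDedekindDomain Filter Topology Polynomial

namespace Pool.Agent.Results.MP_1f4fc7_nt.GL2Family

open Pool.Agent.H1.Tate Pool.Agent.H16.HK Pool.Agent.H16.GF

/-- Let `γ(L) = log |L(s)| / log (1 / (s - 2))` and `x_j = γ(L₂(Y × A_j)) - γ(L₂(Y)) - γ(L₂(A_j))`.
(A) For every finite set `I` of indices `limsup (∑_{j ∈ I} x_j² / d_j - 2 n γ(L(s, H¹(Y) ⊗ H¹(Y)^∨(-1)))) ≤ 0` and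
`limsup ∑_{j ∈ I} x_j² / d_j ≤ 2 n B²` as `s → 2+`. If `L₂(Y)`, `L₂(A_j)`, `L₂(Y × A_j)` have poles of orders `ρ`, `ρ_j`, `r_j` at
`s = 2`, then `∑_{j ∈ I} (r_j - ρ - ρ_j)² / d_j ≤ 2 n B²`, and `≤ 2 n r` if `L(s, H¹(Y) ⊗ H¹(Y)^∨(-1))` has a pole of order `r`;
if `d_j ≤ D` for all `j`, then `r_j = ρ + ρ_j` for all but at most `2 n B² D` indices `j`.
(B) The same for the elliptic curves `E_j`, with `d_j = 1` and `γ(L₂(E_j))`, `ρ_j` replaced by `1`. -/
theorem result {k : Type*} [Field k] [NumberField k] (Y : Variety k)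
    (bad badQ : HeightOneSpectrum (𝓞 k) → Multiset ℂ) (hbad : FactorBound Y.R bad)
    (hbadQ : FactorBound Y.R badQ) {ι : Type*} :
    (∀ (A : Family k ι) (badA badP : ι → HeightOneSpectrum (𝓞 k) → Multiset ℂ),
      (∀ j, Y.R ⊆ A.R j) → (∀ j, FactorBound (A.R j) (badA j)) →
      (∀ j, FactorBound (A.R j) (badP j)) →
      (∀ (I : Finset ι) (ε : ℝ), 0 < ε → ∀ᶠ s : ℝ in 𝓝[>] 2,
        ∑ j ∈ I, (gam (eulerL (A.R j) (prodTr Y.a Y.b (A.coeff j) (A.b j)) (badP j)) s -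
          gam (eulerL Y.R Y.b bad) s - gam (eulerL (A.R j) (A.b j) (badA j)) s) ^ 2 / A.d j ≤
            2 * Module.finrank ℚ k * gam (eulerL Y.R (sqTr Y.a) badQ) s + ε) ∧
      (∀ (I : Finset ι) (ε : ℝ), 0 < ε → ∀ᶠ s : ℝ in 𝓝[>] 2,
        ∑ j ∈ I, (gam (eulerL (A.R j) (prodTr Y.a Y.b (A.coeff j) (A.b j)) (badP j)) s -
          gam (eulerL Y.R Y.b bad) s - gam (eulerL (A.R j) (A.b j) (badA j)) s) ^ 2 / A.d j ≤
            2 * Module.finrank ℚ k * Y.B ^ 2 + ε) ∧
      ∀ (ρ : ℤ) (ρA r : ι → ℤ), HasPole (eulerL Y.R Y.b bad) 2 ρ →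
        (∀ j, HasPole (eulerL (A.R j) (A.b j) (badA j)) 2 (ρA j)) →
        (∀ j, HasPole (eulerL (A.R j) (prodTr Y.a Y.b (A.coeff j) (A.b j)) (badP j)) 2 (r j)) →
        (∀ I : Finset ι, ∑ j ∈ I, ((r j : ℝ) - ρ - ρA j) ^ 2 / A.d j ≤
          2 * Module.finrank ℚ k * Y.B ^ 2) ∧
        (∀ rQ : ℤ, HasPole (eulerL Y.R (sqTr Y.a) badQ) 2 rQ → ∀ I : Finset ι,
          ∑ j ∈ I, ((r j : ℝ) - ρ - ρA j) ^ 2 / A.d j ≤ 2 * Module.finrank ℚ k * rQ) ∧
        ∀ D : ℕ, (∀ j, A.d j ≤ D) → {j | r j ≠ ρ + ρA j}.Finite ∧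
          ({j | r j ≠ ρ + ρA j}.ncard : ℝ) ≤ 2 * Module.finrank ℚ k * Y.B ^ 2 * D) ∧
    (∀ (E : EllFamily k ι) (badP : ι → HeightOneSpectrum (𝓞 k) → Multiset ℂ),
      (∀ j, Y.R ⊆ E.R j) → (∀ j, FactorBound (E.R j) (badP j)) →
      (∀ (I : Finset ι) (ε : ℝ), 0 < ε → ∀ᶠ s : ℝ in 𝓝[>] 2,
        ∑ j ∈ I, (gam (eulerL (E.R j) (ellTr Y.a Y.b (E.h j)) (badP j)) s -
          gam (eulerL Y.R Y.b bad) s - 1) ^ 2 ≤
            2 * Module.finrank ℚ k * gam (eulerL Y.R (sqTr Y.a) badQ) s + ε) ∧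
      (∀ (I : Finset ι) (ε : ℝ), 0 < ε → ∀ᶠ s : ℝ in 𝓝[>] 2,
        ∑ j ∈ I, (gam (eulerL (E.R j) (ellTr Y.a Y.b (E.h j)) (badP j)) s -
          gam (eulerL Y.R Y.b bad) s - 1) ^ 2 ≤ 2 * Module.finrank ℚ k * Y.B ^ 2 + ε) ∧
      ∀ (ρ : ℤ) (r : ι → ℤ), HasPole (eulerL Y.R Y.b bad) 2 ρ →
        (∀ j, HasPole (eulerL (E.R j) (ellTr Y.a Y.b (E.h j)) (badP j)) 2 (r j)) →
        (∀ I : Finset ι, ∑ j ∈ I, ((r j : ℝ) - ρ - 1) ^ 2 ≤ 2 * Module.finrank ℚ k * Y.B ^ 2) ∧
        (∀ rQ : ℤ, HasPole (eulerL Y.R (sqTr Y.a) badQ) 2 rQ → ∀ I : Finset ι,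
          ∑ j ∈ I, ((r j : ℝ) - ρ - 1) ^ 2 ≤ 2 * (Module.finrank ℚ k : ℝ) * rQ) ∧
        {j | r j ≠ ρ + 1}.Finite ∧
          ({j | r j ≠ ρ + 1}.ncard : ℝ) ≤ 2 * Module.finrank ℚ k * Y.B ^ 2) := by
  constructor
  · intro A badA badP hR hbadA hbadP
    refine ⟨fun I ε hε => ?_, fun I ε hε => ?_, fun ρ ρA r hρ hA hr => ⟨fun I => ?_,
      fun rQ hQ I => ?_, fun D hD => ?_⟩⟩
    · refine (growth A Y hR hbad hbadQ hbadA hbadP I hε).mono fun s hs => ?_
      unfold gam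
      simp only [← sub_div]
      exact hs
    · refine (growth_abs A Y hR hbad hbadA hbadP I hε).mono fun s hs => ?_
      unfold gam
      simp only [← sub_div]
      exact hs
    · exact pole_le A Y hR hbad hbadA hbadP I hρ (fun j _ => hA j) (fun j _ => hr j)
    · exact pole_le_self A Y hR hbad hbadQ hbadA hbadP I hρ (fun j _ => hA j) (fun j _ => hr j) hQ
    · have h1 := exceptions A (x := fun j => r j - ρ - ρA j) (D := D)
        (C := 2 * Module.finrank ℚ k * Y.B ^ 2) hD (fun I => by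
          have := pole_le A Y hR hbad hbadA hbadP I hρ (fun j _ => hA j) (fun j _ => hr j)
          push_cast
          exact this)
      have h2 : {j | r j ≠ ρ + ρA j} = {j | (fun j => r j - ρ - ρA j) j ≠ 0} := by
        ext j
        simp only [Set.mem_ofPred_eq, ne_eq]
        constructor
        · intro h h'
          exact h (by omega)
        · intro h h'
          exact h (by omega)
      rw [h2]
      exact h1
  · intro E badP hR hbadP
    refine ⟨fun I ε hε => ?_, fun I ε hε => ?_, fun ρ r hρ hr => ⟨fun I => ?_,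
      fun rQ hQ I => ?_, ?_⟩⟩
    · refine (ell_growth E Y hR hbad hbadQ hbadP I hε).mono fun s hs => ?_
      unfold gam
      simp only [← sub_div]
      exact hs
    · refine (ell_growth_abs E Y hR hbad hbadP I hε).mono fun s hs => ?_
      unfold gam
      simp only [← sub_div]
      exact hs
    · exact ell_pole_le E Y hR hbad hbadP I hρ (fun j _ => hr j)
    · exact ell_pole_le_self E Y hR hbad hbadQ hbadP I hρ (fun j _ => hr j) hQ
    · exact ell_exceptions E Y hR hbad hbadP hρ hr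

end Pool.Agent.Results.MP_1f4fc7_nt.GL2Family
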