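import Mathlib
import Pool.Agent.H3.SF.Twist

open NumberField IsDedekindDomain Filter Topology Module Pool.Agent.H3.TatePole Pool.Agent.H3.Artin

namespace Pool.Agent.Results.MP_1f4fc7_nt.SymmetricFields

/-- **The order formula over the intermediate fields and the Artin twists of an `S_n`-extension.**

`k` is a number field, `Ω` an algebraic closure, `ρ` a finite-dimensional complex representation
of `Gal(Ω/k)` with weights at most two (for instance `H²(X̄, ℚ_ℓ) ⊗ ℂ` for a smooth projective
variety `X` over `k`), `α` a complex representation which is trivial on `Gal(Ω/L)` for a finite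
extension `L` of `k` (for instance `NS(X̄) ⊗ ℂ`), and `cl` an injective linear map, equivariant up
to the Tate twist `ω` (for instance the cycle class map).  Let `B = dim ρ - dim α`.

`M` is a finite Galois extension of `k` whose group is the symmetric group of degree
`n ≥ 2 ^ (40 (B + 1))`, and `E` is its quadratic subfield.  Suppose that over every field `K` with
`k ≤ K ≤ M` the quotient `log |L(s, ρ|K)| / log (1 / (s - 2))` tends to an integer `r K` as
`s → 2+` (this is the case if `L(s, ρ|K)` has a pole of some order `r K` at `s = 2`).  Let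
`δ K = r K - dim α^Gal(Ω/K)` be the defect of the order formula over `K`.
(1) If `E` is contained in `K` then `δ K = δ E`, and otherwise `δ K = δ k`.
(2) For every irreducible representation `χ` of `Gal(M/k)` of dimension at least two,
`log |L(s, ρ ⊗ χ)| / log (1 / (s - 2))` tends to the dimension of the space of invariants of
`α ⊗ χ`, and if `L(s, ρ ⊗ χ)` has a pole of some order at `s = 2`, this dimension is its order. -/
theorem result {k : Type*} [Field k] [NumberField k] {Ω : Type*} [Field Ω] [Algebra k Ω]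
    [IsGalois k Ω] [IsAlgClosed Ω]
    {V A : Type*} [AddCommGroup V] [Module ℂ V] [FiniteDimensional ℂ V]
    [AddCommGroup A] [Module ℂ A] [FiniteDimensional ℂ A]
    (ρ : Representation ℂ Gal(Ω/k) V) (hρ : WeightsLeTwo (RingHom.id ℂ) ρ)
    (α : Representation ℂ Gal(Ω/k) A) (L : IntermediateField k Ω) [FiniteDimensional k L]
    (hα : ∀ σ ∈ L.fixingSubgroup, α σ = 1)
    (ω : Gal(Ω/k) →* ℂ) (hω : IsTateTwist ω)
    (cl : A →ₗ[ℂ] V) (hcl : Function.Injective cl)
    (hclω : ∀ σ a, ρ σ (cl a) = ω σ • cl (α σ a))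
    (M : IntermediateField k Ω) [FiniteDimensional k M] [Normal k M]
    {n : ℕ} (e : Gal(M/k) ≃* Equiv.Perm (Fin n))
    (hn : 2 ^ (40 * (finrank ℂ V - finrank ℂ A + 1)) ≤ n)
    (r : IntermediateField k Ω → ℤ)
    (hr : ∀ K ≤ M, ∀ _ : FiniteDimensional k K,
      HasGrowth (LFunction (RingHom.id ℂ) (resRep ρ K)) (r K))
    (E : IntermediateField k Ω) (hE : E ≤ M) (hE2 : finrank k E = 2) :
    (∀ (K : IntermediateField k Ω) [FiniteDimensional k K], K ≤ M →
      (E ≤ K → r K - finrank ℂ (resRep α K).invariants =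
        r E - finrank ℂ (resRep α E).invariants) ∧
      (¬ E ≤ K → r K - finrank ℂ (resRep α K).invariants =
        r ⊥ - finrank ℂ (resRep α (⊥ : IntermediateField k Ω)).invariants)) ∧
    (∀ {W : Type*} [AddCommGroup W] [Module ℂ W] [FiniteDimensional ℂ W]
      (χ : Representation ℂ Gal(M/k) W), χ.IsIrreducible → 2 ≤ finrank ℂ W →
      HasGrowth (twistedL ρ χ) (twistedRank α χ) ∧
      ∀ m : ℤ, HasPoleOfOrder (twistedL ρ χ) 2 m → m = twistedRank α χ) := by
  have hω' : {𝔭 : HeightOneSpectrum (𝓞 k) |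
      ω (frobeniusAt Ω 𝔭).φ⁻¹ ≠ Ideal.absNorm 𝔭.asIdeal}.Finite :=
    hω.subset fun 𝔭 h => ⟨_, h⟩
  refine ⟨fun K _ hK => Pool.Agent.H3.SF.symmetric_fields ρ hρ α L hα ω hω' cl hcl hclω M e hn r hr
    E hE hE2 K hK, fun χ hirr h2 => ?_⟩
  have h1 := Pool.Agent.H3.SF.symmetric_twists ρ hρ α L hα ω hω' cl hcl hclω M e hn r hr χ hirr h2
  refine ⟨h1, fun m hm => ?_⟩
  have h3 := tendsto_nhds_unique hm.hasGrowth h1
  exact_mod_cast h3

end Pool.Agent.Results.MP_1f4fc7_nt.SymmetricFields
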