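import Mathlib
import Pool.Agent.H3.TF.Final

open NumberField IsDedekindDomain Filter Topology Module Pool.Agent.H3.TatePole Pool.Agent.H3.Artin

namespace Pool.Agent.Results.MP_1f4fc7_nt.TwistedForms

/-- **The defect of the pole formula for the twisted forms of a variety with a finite group action.**

`K/k` is a finite normal extension of number fields, `Ω` an algebraic closure, `G` a finite group on
which `Gal(Ω/k)` acts through `a`, trivially on `Gal(Ω/K)` (a finite étale group scheme over `k`,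
constant over `K`).  `ρ`, `τ` are compatible actions of `Gal(Ω/k)` and `G` on `V` (for instance
`H²(X̄, ℚ_ℓ) ⊗ ℂ` for a smooth projective variety `X` over `k` with an action of `G`), with weights
at most two; `α`, `τA` are compatible actions on `A` (for instance `NS(X̄) ⊗ ℂ`), the first one
trivial on `Gal(Ω/L)` for a finite extension `L` of `k`, and `cl : A → V` is an injective
`G`-equivariant map, equivariant up to the Tate twist `ω` for the Galois group.

For a homomorphism `ξ : Gal(Ω/K) → G` the twisted form of `ρ` is `σ ↦ τ(ξ σ) ρ(σ)` (for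
`H²(X̄)` this is `H²` of the twisted form `X_ξ` over `K`), and the twisted form of `α` is
`σ ↦ τA(ξ σ) α(σ)` (its space of invariants is `NS(X_ξ/K) ⊗ ℂ`).  The defect of `ξ` is the order of
the pole (or the growth) of the `L`-function of the form of `ρ` at `s = 2` minus the dimension of the
invariants of the form of `α`; the defect of the quotient is the same for the subspaces `V^G`, `A^G`
of `G`-invariant vectors.  The pole formula says that the defect is zero.

Let `ξ i`, `t i` be finitely many homomorphisms and elements of `Gal(Ω/k)` such that the conjugates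
`σ ↦ ξ i (t i⁻¹ σ t i)` are pairwise independent: for `i ≠ j` one of the two maps the kernel of the
other onto `G`.  Let `B = (dim V - dim A) - (dim V^G - dim A^G)`.
(1), (2) The sum over `i` of the squares of the differences of the defect of `ξ i` and the defect of
the quotient is at most `B²`.
(3) If all `ξ i` are equal to one `ξ` and there are more than `B²` indices, the defect of `ξ` is equal
to the defect of the quotient. -/
theorem result {k : Type*} [Field k] [NumberField k] {Ω : Type*} [Field Ω] [Algebra k Ω]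
    [IsGalois k Ω] [IsAlgClosed Ω]
    (K : IntermediateField k Ω) [FiniteDimensional k K] [Normal k K]
    {G : Type*} [Group G] [Finite G]
    (a : Gal(Ω/k) →* MulAut G) (haK : ∀ σ ∈ K.fixingSubgroup, a σ = 1)
    {V A : Type*} [AddCommGroup V] [Module ℂ V] [FiniteDimensional ℂ V]
    [AddCommGroup A] [Module ℂ A] [FiniteDimensional ℂ A]
    (ρ : Representation ℂ Gal(Ω/k) V) (hρ : WeightsLeTwo (RingHom.id ℂ) ρ)
    (α : Representation ℂ Gal(Ω/k) A) (L : IntermediateField k Ω) [FiniteDimensional k L]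
    (hα : ∀ σ ∈ L.fixingSubgroup, α σ = 1)
    (ω : Gal(Ω/k) →* ℂ) (hω : IsTateTwist ω)
    (τ : Representation ℂ G V) (hτ : ∀ σ g, ρ σ ∘ₗ τ g = τ (a σ g) ∘ₗ ρ σ)
    (τA : Representation ℂ G A) (hτA : ∀ σ g, α σ ∘ₗ τA g = τA (a σ g) ∘ₗ α σ)
    (cl : A →ₗ[ℂ] V) (hcl : Function.Injective cl)
    (hclω : ∀ σ x, ρ σ (cl x) = ω σ • cl (α σ x)) (hclτ : ∀ g x, cl (τA g x) = τ g (cl x))
    {ι : Type*} [Fintype ι] (ξ : ι → Gal(Ω/K) →* G)
    (M : IntermediateField K Ω) [FiniteDimensional K M]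
    (hM : ∀ i, ∀ σ ∈ M.fixingSubgroup, ξ i σ = 1)
    (t : ι → Gal(Ω/k)) (c : ι → Gal(Ω/K) →* Gal(Ω/K))
    (hc : ∀ i σ (x : Ω), t i (c i σ x) = σ (t i x))
    (hs : ∀ i j, i ≠ j → (∀ g : G, ∃ σ, ξ i (c i σ) = 1 ∧ ξ j (c j σ) = g) ∨
      (∀ g : G, ∃ σ, ξ j (c j σ) = 1 ∧ ξ i (c i σ) = g))
    (ρ' : ι → Representation ℂ Gal(Ω/K) V) (hρ' : ∀ i σ, ρ' i σ = τ (ξ i σ) ∘ₗ resRep ρ K σ)
    (α' : ι → Representation ℂ Gal(Ω/K) A) (hα' : ∀ i σ, α' i σ = τA (ξ i σ) ∘ₗ resRep α K σ)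
    (ρ₀ : Representation ℂ Gal(Ω/K) τ.invariants) (hρ₀ : ∀ σ x, (ρ₀ σ x : V) = resRep ρ K σ x)
    (α₀ : Representation ℂ Gal(Ω/K) τA.invariants)
    (hα₀ : ∀ σ x, (α₀ σ x : A) = resRep α K σ x) :
    (∀ ε : ℝ, 0 < ε → ∀ᶠ s : ℝ in 𝓝[>] 2, ∑ i,
      ((Real.log ‖LFunction (RingHom.id ℂ) (ρ' i) s‖ / Real.log (1 / (s - 2)) -
          finrank ℂ (α' i).invariants) -
        (Real.log ‖LFunction (RingHom.id ℂ) ρ₀ s‖ / Real.log (1 / (s - 2)) -
          finrank ℂ α₀.invariants)) ^ 2 ≤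
      (((finrank ℂ V : ℝ) - finrank ℂ A) - ((finrank ℂ τ.invariants : ℝ) -
        finrank ℂ τA.invariants)) ^ 2 + ε) ∧
    (∀ (r : ι → ℤ) (r₀ : ℤ), (∀ i, HasPoleOfOrder (LFunction (RingHom.id ℂ) (ρ' i)) 2 (r i)) →
      HasPoleOfOrder (LFunction (RingHom.id ℂ) ρ₀) 2 r₀ →
      ∑ i, ((r i - finrank ℂ (α' i).invariants) - (r₀ - finrank ℂ α₀.invariants)) ^ 2 ≤
        (((finrank ℂ V : ℤ) - finrank ℂ A) - ((finrank ℂ τ.invariants : ℤ) -
          finrank ℂ τA.invariants)) ^ 2) ∧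
    ((∀ i j, ξ i = ξ j) →
      (((finrank ℂ V : ℤ) - finrank ℂ A) - ((finrank ℂ τ.invariants : ℤ) -
          finrank ℂ τA.invariants)) ^ 2 < Fintype.card ι →
      ∀ (i : ι) (r r₀ : ℤ), HasPoleOfOrder (LFunction (RingHom.id ℂ) (ρ' i)) 2 r →
        HasPoleOfOrder (LFunction (RingHom.id ℂ) ρ₀) 2 r₀ →
        r - finrank ℂ (α' i).invariants = r₀ - finrank ℂ α₀.invariants) := by
  refine ⟨fun ε hε => Pool.Agent.H3.TF.tf_log K a haK ρ hρ α L hα ω hω τ hτ τA hτA cl hcl hclω hclτ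
    M ξ hM t c hc hs ρ' hρ' α' hα' ρ₀ hρ₀ α₀ hα₀ hε, fun r r₀ hr hr₀ =>
    Pool.Agent.H3.TF.tf_pole K a haK ρ hρ α L hα ω hω τ hτ τA hτA cl hcl hclω hclτ
    M ξ hM t c hc hs ρ' hρ' α' hα' ρ₀ hρ₀ α₀ hα₀ r hr r₀ hr₀, fun hξ hB i r r₀ hr hr₀ => ?_⟩
  have e1 : ∀ j, ρ' j = ρ' i := fun j => by
    ext σ : 1
    rw [hρ', hρ', hξ j i]
  have e2 : ∀ j, α' j = α' i := fun j => by
    ext σ : 1
    rw [hα', hα', hξ j i]
  have h1 := Pool.Agent.H3.TF.tf_pole K a haK ρ hρ α L hα ω hω τ hτ τA hτA cl hcl hclω hclτ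
    M ξ hM t c hc hs ρ' hρ' α' hα' ρ₀ hρ₀ α₀ hα₀ (fun _ => r) (fun j => by rw [e1 j]; exact hr) r₀ hr₀
  rw [Finset.sum_congr rfl fun j _ => by rw [e2 j], Finset.sum_const, Finset.card_univ,
    nsmul_eq_mul] at h1
  set x : ℤ := (r - finrank ℂ (α' i).invariants) - (r₀ - finrank ℂ α₀.invariants) with hx
  have hx0 : x = 0 := by
    by_contra hne
    have h2 : 1 ≤ x ^ 2 := by
      have : 0 < x ^ 2 := by positivity
      omega
    have h3 : (0 : ℤ) ≤ (Fintype.card ι : ℤ) := by positivity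
    nlinarith
  linarith

end Pool.Agent.Results.MP_1f4fc7_nt.TwistedForms
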